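import Pool.Agent.Q144.MSe

set_option autoImplicit false

/-! A unistable convex polyhedron whose resting face is the unique face of least diameter. -/

open MeasureTheory Set Metric
open scoped InnerProductSpace

namespace Pool.Agent.Results.MP_5eb3ac_co.RestingFace

/-- Three-dimensional Euclidean space. -/
abbrev E3 : Type := EuclideanSpace ℝ (Fin 3)

/-- The centroid (centre of mass for uniform density). -/
noncomputable def centroid (K : Set E3) : E3 := (volume.real K)⁻¹ • ∫ x in K, x

/-- A convex polyhedron: a compact set with nonempty interior that is the set of solutions of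
finitely many linear inequalities. -/
def IsConvexPolyhedron (P : Set E3) : Prop :=
  IsCompact P ∧ (interior P).Nonempty ∧
    ∃ T : Finset (E3 × ℝ), P = {x | ∀ p ∈ T, ⟪p.1, x⟫_ℝ ≤ p.2}

/-- `F` is a (2-dimensional) face of `P`: the set of all points of `P` that are extreme in some
direction `u ≠ 0`, and of dimension 2. -/
def IsFace (P F : Set E3) : Prop :=
  ∃ u : E3, u ≠ 0 ∧ F = {x | x ∈ P ∧ ∀ y ∈ P, ⟪u, y⟫_ℝ ≤ ⟪u, x⟫_ℝ} ∧
    Module.finrank ℝ (vectorSpan ℝ F) = 2

/-- `P` is stable on its face `F`: the orthogonal projection `p` of the centroid of `P` onto the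
plane of `F` lies in the relative interior of `F`. -/
def StableOn (P F : Set E3) : Prop :=
  IsFace P F ∧ ∃ p ∈ intrinsicInterior ℝ F, ∀ x ∈ F, ⟪centroid P - p, x - p⟫_ℝ = 0

/-- There is a convex polyhedron `P` of uniform density that is stable on exactly one face `F₀`,
and `F₀` has smaller diameter than every other face of `P`. -/
theorem result : ∃ P : Set E3, IsConvexPolyhedron P ∧ ∃ F₀ : Set E3, StableOn P F₀ ∧
    (∀ F : Set E3, StableOn P F → F = F₀) ∧
    ∀ F : Set E3, IsFace P F → F ≠ F₀ → diam F₀ < diam F := by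
  obtain ⟨P, F₀, h1, h2, h3, h4⟩ := Q144.MS.main
  exact ⟨P, h1, F₀, h2, h3, h4⟩

end Pool.Agent.Results.MP_5eb3ac_co.RestingFace
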